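import Pool.Agent.Lib.MP_5349a4_pr.M.Iface4
import Pool.Agent.Lib.MP_5349a4_pr.M.Base

/-!
# CNTE (11.3)(i),(ii): counting edges of the minimal spanning forest
-/

set_option autoImplicit false
open MeasureTheory Set
open scoped ENNReal NNReal

namespace Pool.Agent.Lib.MP_5349a4_pr.H91

open Classical in
private noncomputable def FF {d : ℕ} (S : Set (Eu d)) (A : Finset (Eu d)) : Finset (Eu d × Eu d) :=
  (A ×ˢ A).filter fun q => edge S q.1 q.2

private def TT {d : ℕ} (S : Set (Eu d)) (A : Finset (Eu d)) : Set (Eu d × Eu d) :=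
  {q | (edge S q.1 q.2 ∧ ¬ bad S q.1 q.2) ∧ (q.1 ∈ A ∨ q.2 ∈ A)}

lemma chain_rev {d : ℕ} {S : Set (Eu d)} {r : ℝ} {y x : Eu d} (hy : y ∈ S)
    (h : Relation.ReflTransGen (fun a b => dist a b < r ∧ b ∈ S) y x) :
    x ∈ S ∧ Relation.ReflTransGen (fun a b => dist a b < r ∧ b ∈ S) x y := by
  induction h with
  | refl => exact ⟨hy, Relation.ReflTransGen.refl⟩
  | tail _ hbc ih =>
    refine ⟨hbc.2, ?_⟩
    exact Relation.ReflTransGen.head ⟨by rw [dist_comm]; exact hbc.1, ih.1⟩ ih.2

lemma edge_symm {d : ℕ} {S : Set (Eu d)} {x y : Eu d} (h : edge S x y) : edge S y x := by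
  obtain ⟨hx, hy, hne, hno⟩ := h
  refine ⟨hy, hx, hne.symm, fun hc => hno ?_⟩
  have := (chain_rev hy hc).2
  show Relation.ReflTransGen _ x y
  rw [dist_comm x y]
  exact this

lemma bad_symm {d : ℕ} {S : Set (Eu d)} {x y : Eu d} (h : bad S x y) : bad S y x := by
  obtain ⟨he, h1, h2⟩ := h
  refine ⟨edge_symm he, ?_, ?_⟩
  · rw [dist_comm y x]; exact h2
  · rw [dist_comm y x]; exact h1

/-- (i): the edges inside a finite non-empty set of points form a forest -/
lemma inside_le {d : ℕ} {S : Set (Eu d)} (hG : Gen S) : ∀ (n : ℕ) (A : Finset (Eu d)), A.card = n →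
    (A : Set (Eu d)) ⊆ S → A.Nonempty → (FF S A).card + 2 ≤ 2 * A.card := by
  classical
  intro n
  induction n using Nat.strong_induction_on with
  | _ n ih =>
    intro A hn hAS hA
    by_cases hF : (FF S A).Nonempty
    · obtain ⟨⟨x, y⟩, hq, hmax⟩ := Finset.exists_max_image (FF S A) (fun q => dist q.1 q.2) hF
      have hq' := hq
      simp only [FF, Finset.mem_filter, Finset.mem_product] at hq'
      obtain ⟨⟨hxA, hyA⟩, hxS, hyS, hne, hno⟩ := hq'
      dsimp only at hxA hyA hxS hyS hne hno hmax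
      set l := dist x y with hl
      set A1 := A.filter (fun a => a ∈ och S l x) with hA1
      set A2 := A.filter (fun a => a ∉ och S l x) with hA2
      have hcard : A1.card + A2.card = A.card := by
        rw [hA1, hA2]; exact Finset.card_filter_add_card_filter_not _
      have hx1 : x ∈ A1 := by
        rw [hA1, Finset.mem_filter]; exact ⟨hxA, Relation.ReflTransGen.refl⟩
      have hy2 : y ∈ A2 := by
        rw [hA2, Finset.mem_filter]; exact ⟨hyA, hno⟩
      have hc1 : 0 < A1.card := Finset.card_pos.mpr ⟨x, hx1⟩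
      have hc2 : 0 < A2.card := Finset.card_pos.mpr ⟨y, hy2⟩
      have i1 := ih A1.card (by omega) A1 rfl
        (fun a ha => hAS (by
          have : a ∈ A1 := ha
          rw [hA1, Finset.mem_filter] at this; exact this.1)) ⟨x, hx1⟩
      have i2 := ih A2.card (by omega) A2 rfl
        (fun a ha => hAS (by
          have : a ∈ A2 := ha
          rw [hA2, Finset.mem_filter] at this; exact this.1)) ⟨y, hy2⟩
      have hsub : FF S A ⊆ (FF S A1 ∪ FF S A2) ∪ {(x, y), (y, x)} := by
        rintro ⟨a, b⟩ hab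
        have hle := hmax (a, b) hab
        simp only [FF, Finset.mem_filter, Finset.mem_product] at hab
        obtain ⟨⟨haA, hbA⟩, haS, hbS, hab1, hab2⟩ := hab
        dsimp only at haA hbA haS hbS hab1 hab2 hle
        simp only [Finset.mem_union, Finset.mem_insert, Finset.mem_singleton]
        rcases lt_or_eq_of_le hle with hlt | heq
        · left
          by_cases ha : a ∈ och S l x
          · left
            have hb : b ∈ och S l x := Relation.ReflTransGen.tail ha ⟨hlt, hbS⟩
            simp only [FF, Finset.mem_filter, Finset.mem_product, hA1]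
            exact ⟨⟨⟨haA, ha⟩, ⟨hbA, hb⟩⟩, haS, hbS, hab1, hab2⟩
          · right
            have hb : b ∉ och S l x := fun hb => ha
              (Relation.ReflTransGen.tail hb ⟨by rw [dist_comm]; exact hlt, haS⟩)
            simp only [FF, Finset.mem_filter, Finset.mem_product, hA2]
            exact ⟨⟨⟨haA, ha⟩, ⟨hbA, hb⟩⟩, haS, hbS, hab1, hab2⟩
        · right
          rcases hG a haS b hbS x hxS y hyS hab1 hne heq with ⟨h1, h2⟩ | ⟨h1, h2⟩
          · left; rw [h1, h2]
          · right; rw [h1, h2]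
      have h1 := Finset.card_le_card hsub
      have h2 : ((FF S A1 ∪ FF S A2) ∪ {(x, y), (y, x)}).card
          ≤ (FF S A1).card + (FF S A2).card + 2 := by
        refine (Finset.card_union_le _ _).trans ?_
        have := Finset.card_union_le (FF S A1) (FF S A2)
        have h3 : ({(x, y), (y, x)} : Finset (Eu d × Eu d)).card ≤ 2 := Finset.card_le_two
        omega
      omega
    · rw [Finset.not_nonempty_iff_eq_empty] at hF
      rw [hF]
      have := Finset.card_pos.mpr hA
      simp only [Finset.card_empty]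
      omega

lemma och_sub {d : ℕ} {S : Set (Eu d)} {A : Finset (Eu d)} {l : ℝ} {x : Eu d} (hx : x ∈ A)
    (h : ∀ a ∈ A, ∀ s ∈ S, s ∉ A → l ≤ dist a s) : och S l x ⊆ A := by
  intro p hp
  have hp' : Relation.ReflTransGen (fun a b => dist a b < l ∧ b ∈ S) x p := hp
  induction hp' with
  | refl => exact hx
  | @tail b c hxb hbc ih =>
    by_contra hc
    have := h b (ih hxb) c hbc.2 hc
    exact absurd hbc.1 (not_lt.mpr this)

/-- (ii): at least `|A|` non-bad edges touch `A` -/
lemma touch_ge {d : ℕ} {S : Set (Eu d)} (hLF : LF S) (hinf : S.Infinite) : ∀ (n : ℕ)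
    (A : Finset (Eu d)), A.card = n → (A : Set (Eu d)) ⊆ S → ((2 * n : ℕ) : ℕ∞) ≤ (TT S A).encard := by
  classical
  intro n
  induction n with
  | zero => intro A _ _; simp
  | succ n ih =>
    intro A hn hAS
    have hA : A.Nonempty := Finset.card_pos.mp (by omega)
    obtain ⟨a0, ha0⟩ := hA
    obtain ⟨s0, hs0S, hs0A⟩ := hinf.exists_notMem_finset A
    set r0 := dist a0 s0 with hr0
    set K : Set (Eu d × Eu d) := {q | q.1 ∈ A ∧ q.2 ∈ S ∧ q.2 ∉ A ∧ dist q.1 q.2 ≤ r0} with hK
    have hKfin : K.Finite := by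
      refine Set.Finite.subset (Set.Finite.biUnion A.finite_toSet
        (t := fun a => ({a} : Set (Eu d)) ×ˢ (S ∩ Metric.closedBall a r0))
        (fun a _ => (Set.finite_singleton a).prod (hLF _ Metric.isBounded_closedBall))) ?_
      rintro ⟨a, s⟩ ⟨h1, h2, _, h4⟩
      simp only [Set.mem_iUnion]
      refine ⟨a, h1, ?_⟩
      refine ⟨rfl, h2, ?_⟩
      rw [Metric.mem_closedBall, dist_comm]; exact h4
    obtain ⟨⟨x, y⟩, ⟨hxA, hyS, hyA, hxy⟩, hmin⟩ := Set.exists_min_image K (fun q => dist q.1 q.2)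
      hKfin ⟨(a0, s0), ha0, hs0S, hs0A, le_refl _⟩
    dsimp only at hxA hyS hyA hxy hmin
    have hall : ∀ a ∈ A, ∀ s ∈ S, s ∉ A → dist x y ≤ dist a s := by
      intro a ha s hs hsA
      by_cases h : dist a s ≤ r0
      · exact hmin (a, s) ⟨ha, hs, hsA, h⟩
      · exact hxy.trans (le_of_lt (not_le.mp h))
    have hsub := och_sub hxA hall
    have hne : x ≠ y := fun h => hyA (h ▸ hxA)
    have hedge : edge S x y := ⟨hAS hxA, hyS, hne, fun h => hyA (hsub h)⟩
    have hnb : ¬ bad S x y := fun h => h.2.1 (A.finite_toSet.subset hsub)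
    have hnb' : ¬ bad S y x := fun h => hnb (bad_symm h)
    have ih' := ih (A.erase x) (by rw [Finset.card_erase_of_mem hxA]; omega)
      (fun a ha => hAS (Finset.mem_of_mem_erase ha))
    have hsubT : TT S (A.erase x) ∪ {(x, y), (y, x)} ⊆ TT S A := by
      rintro q (hq | hq)
      · refine ⟨hq.1, ?_⟩
        rcases hq.2 with h | h
        · exact Or.inl (Finset.mem_of_mem_erase h)
        · exact Or.inr (Finset.mem_of_mem_erase h)
      · rcases hq with hq | hq
        · rw [hq]; exact ⟨⟨hedge, hnb⟩, Or.inl hxA⟩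
        · rw [Set.mem_singleton_iff] at hq
          rw [hq]; exact ⟨⟨edge_symm hedge, hnb'⟩, Or.inr hxA⟩
    have hdis : Disjoint (TT S (A.erase x)) ({(x, y), (y, x)} : Set (Eu d × Eu d)) := by
      rw [Set.disjoint_right]
      rintro q hq hT
      have hx' : x ∉ A.erase x := Finset.notMem_erase x A
      have hy' : y ∉ A.erase x := fun h => hyA (Finset.mem_of_mem_erase h)
      rcases hq with hq | hq
      · rw [hq] at hT
        rcases hT.2 with h | h
        · exact hx' h
        · exact hy' h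
      · rw [Set.mem_singleton_iff] at hq
        rw [hq] at hT
        rcases hT.2 with h | h
        · exact hy' h
        · exact hx' h
    have hpair : ({(x, y), (y, x)} : Set (Eu d × Eu d)).encard = 2 := by
      apply Set.encard_pair
      intro h
      exact hne (Prod.mk.inj h).1
    calc ((2 * (n + 1) : ℕ) : ℕ∞) = ((2 * n : ℕ) : ℕ∞) + 2 := by push_cast; ring
      _ ≤ (TT S (A.erase x)).encard + ({(x, y), (y, x)} : Set (Eu d × Eu d)).encard := by
          rw [hpair]; exact add_le_add_left ih' 2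
      _ = (TT S (A.erase x) ∪ {(x, y), (y, x)}).encard := (Set.encard_union_eq hdis).symm
      _ ≤ (TT S A).encard := Set.encard_le_encard hsubT

theorem cnte : CntEStatement := by
  classical
  intro d S A hLF hinf hG hAS hAfin
  by_cases hne : A.Nonempty
  swap
  · rw [Set.not_nonempty_iff_eq_empty] at hne
    subst hne
    simp
  obtain ⟨B, rfl⟩ := hAfin.exists_finset_coe
  have hB : B.Nonempty := by simpa using hne
  simp only [Finset.mem_coe]
  have h1 := inside_le hG B.card B rfl hAS hB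
  have h2 := touch_ge hLF hinf B.card B rfl hAS
  set Bad : Set (Eu d × Eu d) := {q | q.1 ∈ B ∧ q.2 ∈ B ∧ bad S q.1 q.2} with hBad
  set NBi : Set (Eu d × Eu d) := {q | q.1 ∈ B ∧ q.2 ∈ B ∧ edge S q.1 q.2 ∧ ¬ bad S q.1 q.2} with hNBi
  set Out : Set (Eu d × Eu d) := {q | q.1 ∈ B ∧ q.2 ∈ S \ (B : Set (Eu d)) ∧ edge S q.1 q.2} with hOut
  have hFF : ((FF S B : Finset (Eu d × Eu d)) : Set (Eu d × Eu d)) = Bad ∪ NBi := by
    ext q
    simp only [FF, Finset.coe_filter, Finset.mem_product, Set.mem_setOf_eq, hBad, hNBi,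
      Set.mem_union]
    constructor
    · rintro ⟨⟨ha, hb⟩, he⟩
      by_cases hb' : bad S q.1 q.2
      · exact Or.inl ⟨ha, hb, hb'⟩
      · exact Or.inr ⟨ha, hb, he, hb'⟩
    · rintro (⟨ha, hb, hc⟩ | ⟨ha, hb, hc, _⟩)
      · exact ⟨⟨ha, hb⟩, hc.1⟩
      · exact ⟨⟨ha, hb⟩, hc⟩
  have hdis : Disjoint Bad NBi := by
    rw [Set.disjoint_left]
    rintro q ⟨_, _, h⟩ ⟨_, _, _, h'⟩
    exact h' h
  have hcardF : Bad.encard + NBi.encard = ((FF S B).card : ℕ∞) := by
    rw [← Set.encard_union_eq hdis, ← hFF, Set.encard_coe_eq_coe_finsetCard]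
  have hTT : TT S B ⊆ NBi ∪ (Out ∪ Prod.swap '' Out) := by
    rintro ⟨a, b⟩ ⟨⟨he, hb⟩, hor⟩
    dsimp only at he hb hor
    by_cases haB : a ∈ B
    · by_cases hbB : b ∈ B
      · exact Or.inl ⟨haB, hbB, he, hb⟩
      · exact Or.inr (Or.inl ⟨haB, ⟨he.2.1, hbB⟩, he⟩)
    · have hbB : b ∈ B := hor.resolve_left haB
      exact Or.inr (Or.inr ⟨(b, a), ⟨hbB, ⟨he.1, haB⟩, edge_symm he⟩, rfl⟩)
  have hswap : (Prod.swap '' Out).encard = Out.encard :=
    Prod.swap_injective.encard_image Out
  have h3 : (TT S B).encard ≤ NBi.encard + 2 * Out.encard := by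
    calc (TT S B).encard ≤ (NBi ∪ (Out ∪ Prod.swap '' Out)).encard := Set.encard_le_encard hTT
      _ ≤ NBi.encard + (Out ∪ Prod.swap '' Out).encard := Set.encard_union_le _ _
      _ ≤ NBi.encard + (Out.encard + (Prod.swap '' Out).encard) :=
          add_le_add_right (Set.encard_union_le _ _) _
      _ = NBi.encard + 2 * Out.encard := by rw [hswap, two_mul]
  have hNfin : NBi.encard ≠ ⊤ := by
    intro h
    rw [h] at hcardF
    simp at hcardF
  have h4 : NBi.encard + Bad.encard ≤ NBi.encard + 2 * Out.encard := by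
    calc NBi.encard + Bad.encard = ((FF S B).card : ℕ∞) := by rw [add_comm]; exact hcardF
      _ ≤ ((2 * B.card : ℕ) : ℕ∞) := by
          apply Nat.cast_le.mpr; omega
      _ ≤ (TT S B).encard := h2
      _ ≤ _ := h3
  exact (WithTop.add_le_add_iff_left hNfin).mp h4

end Pool.Agent.Lib.MP_5349a4_pr.H91
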