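import Pool.Agent.Lib.MP_5349a4_pr.M.Iface4
import Pool.Agent.Lib.MP_5349a4_pr.M.Base
import Pool.Agent.Lib.MP_5349a4_pr.M.H27.Prob

/-!
# POS (8.4): the labels of the invasion stay below the thresholds with positive probability
-/

set_option autoImplicit false
open MeasureTheory Set
open scoped ENNReal NNReal

namespace Pool.Agent.Lib.MP_5349a4_pr.H91

lemma thr_le_two {κ m0 : ℕ} (hm : 1 ≤ m0) (j : ℕ) : thr κ m0 j ≤ 2 := by
  unfold thr
  split_ifs
  · norm_num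
  · have h1 : (1 : ℝ) ≤ ((2 ^ Nat.log 2 (j / m0) * m0 : ℕ) : ℝ) := by
      have : 1 ≤ 2 ^ Nat.log 2 (j / m0) * m0 := Nat.one_le_iff_ne_zero.mpr (by positivity)
      exact_mod_cast this
    have h2 : (((2 ^ Nat.log 2 (j / m0) * m0 : ℕ) : ℝ)) ^ (-(1 / (6 * (κ : ℝ)))) ≤ 1 := by
      apply Real.rpow_le_one_of_one_le_of_nonpos h1
      have : (0 : ℝ) ≤ 1 / (6 * (κ : ℝ)) := by positivity
      linarith
    linarith

lemma thr_one {κ m0 j : ℕ} (h : j < m0) : thr κ m0 j = 1 := by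
  unfold thr; rw [if_pos h]

lemma lf_of_finite {d : ℕ} {P : Set (Eu d)} (h : P.Finite) : LF P := fun _ _ => h.inter_of_left _

/-- a large cluster of the origin makes the first labels at most one -/
lemma good_of_clus (hD : InvDStatement) {d κ m0 : ℕ} {P : Set (Eu d)} (hP : P.Finite)
    (hG : GenO P 0) (h : m0 ≤ (clus (ad 1) P (0 : Eu d)).ncard) :
    good (thr κ m0) P 0 m0 := by
  have hcl : CLr 1 P (inv P 0 0) = insert (0 : Eu d) (clus (ad 1) P (0 : Eu d)) := by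
    ext p
    simp only [CLr, inv, Set.mem_singleton_iff, exists_eq_left, Set.mem_setOf_eq, Set.mem_insert_iff]
    constructor
    · intro hp
      have hp' : Relation.ReflTransGen (step (ad 1) P) 0 p := hp
      rcases Relation.ReflTransGen.cases_tail hp' with h0 | ⟨c, hc, hcp⟩
      · exact Or.inl h0
      · exact Or.inr ⟨hcp.2, c, hc, hcp.1⟩
    · rintro (rfl | ⟨hpP, c, hc, hcp⟩)
      · exact Relation.ReflTransGen.refl
      · exact Relation.ReflTransGen.tail hc ⟨hcp, hpP⟩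
  have hcfin : (clus (ad 1) P (0 : Eu d)).Finite := hP.subset fun p hp => hp.1
  have h0 : (0 : Eu d) ∉ clus (ad 1) P (0 : Eu d) := fun h => hG.1 h.1
  have key := (hD d P P 0 (lf_of_finite hP) (lf_of_finite hP)).2.2.2.2.2.2.2 hG 1 0 m0 zero_le_one
    (by rw [hcl]; exact hcfin.insert _)
    (by rw [hcl, Set.ncard_insert_of_notMem h0 hcfin]; omega)
  intro j hj
  rw [thr_one hj]
  exact key j (Nat.zero_le _) hj

/-- `exp (-c y^γ)` is smaller than every power -/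
lemma exp_small {c : ℝ} (hc : 0 < c) {κ : ℕ} (hκ : 1 ≤ κ) :
    ∃ K : ℝ, 0 < K ∧ ∀ y : ℝ, 1 ≤ y →
      Real.exp (-(c * y ^ (1 / (400 * (κ : ℝ))))) ≤ K / y ^ (3 * κ + 1) := by
  set N : ℕ := 400 * κ * (3 * κ + 1) with hN
  refine ⟨(N.factorial : ℝ) / c ^ N, by positivity, fun y hy => ?_⟩
  have hy0 : 0 < y := by linarith
  have hκ0 : (κ : ℝ) ≠ 0 := by positivity
  have h1 : (c * y ^ (1 / (400 * (κ : ℝ)))) ^ N = c ^ N * y ^ (3 * κ + 1) := by
    rw [mul_pow, ← Real.rpow_natCast (y ^ _) N, ← Real.rpow_mul hy0.le, ← Real.rpow_natCast y]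
    congr 2
    rw [hN]; push_cast; field_simp
  have h2 := Real.pow_div_factorial_le_exp (x := c * y ^ (1 / (400 * (κ : ℝ)))) (by positivity) N
  rw [h1] at h2
  rw [Real.exp_neg, div_div, inv_eq_one_div, div_le_div_iff₀ (Real.exp_pos _) (by positivity),
    one_mul]
  rw [div_le_iff₀ (by positivity)] at h2
  linarith

theorem pos (hStage : StageStatement) (hPz : PzStatement) (hD : InvDStatement)
    (hGen : GenFStatement) (hGV : GVolStatement) : PosStatement := by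
  intro d lam κ A hcr
  have hκ : 1 ≤ κ := hcr.hκ
  have hd : 1 ≤ d := by
    have h1 := hcr.hd
    have h2 : 1 ≤ κ ^ 2 := Nat.one_le_pow _ _ hκ
    omega
  obtain ⟨C, c, M1, hC, hc, hst⟩ := hStage d lam κ A hcr
  obtain ⟨c1, hc1, hpz⟩ := hPz d lam κ A hcr
  obtain ⟨K, hK, hexp⟩ := exp_small hc hκ
  set β : ℝ := 1 / (25 * (κ : ℝ)) with hβ
  have hβ0 : 0 < β := by rw [hβ]; positivity
  set q : ℝ := (2 : ℝ) ^ (-β) with hq
  have hq0 : 0 < q := by rw [hq]; positivity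
  have hq1 : q < 1 := by
    rw [hq]; exact Real.rpow_lt_one_of_one_lt_of_neg (by norm_num) (by linarith)
  -- choice of `M`
  have ht1 : Filter.Tendsto (fun m : ℕ => C * (m : ℝ) ^ (-β) / (1 - q)) Filter.atTop (nhds 0) := by
    have : Filter.Tendsto (fun m : ℕ => (m : ℝ) ^ (-β)) Filter.atTop (nhds 0) :=
      (tendsto_rpow_neg_atTop hβ0).comp tendsto_natCast_atTop_atTop
    have h2 := (this.const_mul C).div_const (1 - q)
    simpa using h2
  have ht2 : Filter.Tendsto (fun m : ℕ => 2 * K / (m : ℝ)) Filter.atTop (nhds 0) :=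
    tendsto_const_div_atTop_nhds_zero_nat _
  have he1 := (ht1.eventually (gt_mem_nhds (show (0 : ℝ) < 1 / 4 by norm_num)))
  have he2 := (ht2.eventually (gt_mem_nhds (show (0 : ℝ) < c1 / 4 ^ (3 * κ) / 4 by positivity)))
  obtain ⟨M2, hM2⟩ := Filter.eventually_atTop.mp (he1.and he2)
  refine ⟨max (max M1 M2) 1, fun m0 hm0 => ?_⟩
  have hm1 : M1 ≤ m0 := (le_max_left _ _).trans ((le_max_left _ _).trans hm0)
  have hm2 : M2 ≤ m0 := (le_max_right _ _).trans ((le_max_left _ _).trans hm0)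
  have hm : 1 ≤ m0 := (le_max_right _ _).trans hm0
  obtain ⟨hb1, hb2⟩ := hM2 m0 hm2
  have hmR : (1 : ℝ) ≤ (m0 : ℝ) := by exact_mod_cast hm
  have hm0R : (0 : ℝ) < (m0 : ℝ) := by linarith
  set th := thr κ m0 with hth
  have hth2 : ∀ j, th j ≤ 2 := fun j => thr_le_two hm j
  -- elementary facts on `pgood`
  have hle1 : ∀ (L : ℝ) (i : ℕ), pgood d lam th L i ≤ 1 := by
    intro L i
    have : IsFiniteMeasure (leb lam (bal (0 : Eu d) L)) := finite_leb lam Metric.isBounded_closedBall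
    have := (H27.prob (Eu d) (leb lam (bal (0 : Eu d) L))).1
    exact prob_le_one
  have hmono : ∀ (L : ℝ) (i i' : ℕ), i ≤ i' → pgood d lam th L i' ≤ pgood d lam th L i := by
    intro L i i' hii
    exact measure_mono fun ω hω j hj => hω j (lt_of_lt_of_le hj hii)
  -- the sequence
  set m : ℕ → ℕ := fun k => 2 ^ k * m0 with hmdef
  set g : ℕ → ℝ≥0∞ := fun i => pgood d lam th (2 * (i : ℝ) + 2) i with hg
  have hgL : ∀ (i : ℕ) (L : ℝ), 2 * (i : ℝ) + 2 ≤ L → pgood d lam th L i = g i := by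
    intro i L hL
    exact hGV d lam th L (2 * (i : ℝ) + 2) i hd hth2 hL le_rfl
  set a : ℕ → ℝ := fun k => (g (m k)).toReal with ha
  have hgtop : ∀ i, g i ≠ ∞ := fun i => ((hle1 _ i).trans_lt ENNReal.one_lt_top).ne
  have hgmono : ∀ i i', i ≤ i' → g i' ≤ g i := by
    intro i i' hii
    have h1 : (2 * (i : ℝ) + 2) ≤ 2 * (i' : ℝ) + 2 := by
      have : (i : ℝ) ≤ (i' : ℝ) := by exact_mod_cast hii
      linarith
    calc g i' = pgood d lam th (2 * (i' : ℝ) + 2) i' := rfl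
      _ ≤ pgood d lam th (2 * (i' : ℝ) + 2) i := hmono _ _ _ hii
      _ = g i := hgL i _ h1
  have hm0le : ∀ k, m0 ≤ m k := fun k => Nat.le_mul_of_pos_left m0 (by positivity)
  have ha0 : ∀ k, a k ≤ a 0 := by
    intro k
    apply ENNReal.toReal_mono (hgtop _)
    apply hgmono
    simpa [hmdef] using hm0le k
  -- start
  have hstart : c1 / (4 * (m0 : ℝ)) ^ (3 * κ) ≤ a 0 := by
    have h4 : (1 : ℝ) ≤ 4 * (m0 : ℝ) := by linarith
    have hp := hpz (4 * (m0 : ℝ)) h4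
    have hL : 2 * (m0 : ℝ) + 2 ≤ 4 * (m0 : ℝ) := by linarith
    have hdom : Dom (bal (0 : Eu d) (4 * (m0 : ℝ))) := dom_bal _ _
    have : Nonempty (Fin d) := ⟨⟨0, by omega⟩⟩
    obtain ⟨y, hy⟩ := exists_ne (0 : Eu d)
    have hae := hGen d lam (bal (0 : Eu d) (4 * (m0 : ℝ))) 0 y hd hdom hy.symm
    have hsub : PL (leb lam (bal (0 : Eu d) (4 * (m0 : ℝ))))
        {ω | 4 * (m0 : ℝ) / 4 ≤ ((clus (ad 1) (pt ω) (0 : Eu d)).ncard : ℝ)}
        ≤ pgood d lam th (4 * (m0 : ℝ)) m0 := by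
      apply measure_mono_ae
      filter_upwards [hae] with ω hω hcl
      obtain ⟨h0, hy', hG⟩ := hω
      have hGO : GenO (pt ω) (0 : Eu d) := by
        refine ⟨h0, ?_⟩
        intro a ha b hb c' hc' e he
        apply hG a _ b _ c' _ e _
        · rcases ha with ha | ha
          · exact Or.inl ha
          · exact Or.inr (Or.inr ha)
        · rcases hb with hb | hb
          · exact Or.inl hb
          · exact Or.inr (Or.inr hb)
        · rcases hc' with hc' | hc'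
          · exact Or.inl hc'
          · exact Or.inr (Or.inr hc')
        · rcases he with he | he
          · exact Or.inl he
          · exact Or.inr (Or.inr he)
      refine good_of_clus hD (pt_finite ω) hGO ?_
      have h3 : (m0 : ℝ) ≤ ((clus (ad 1) (pt ω) (0 : Eu d)).ncard : ℝ) := by
        have : 4 * (m0 : ℝ) / 4 ≤ ((clus (ad 1) (pt ω) (0 : Eu d)).ncard : ℝ) := hcl
        linarith
      exact_mod_cast h3
    have h5 : ENNReal.ofReal (c1 / (4 * (m0 : ℝ)) ^ (3 * κ)) ≤ g m0 := by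
      rw [← hgL m0 _ hL]; exact hp.trans hsub
    have h6 : m 0 = m0 := by simp [hmdef]
    show _ ≤ (g (m 0)).toReal
    rw [h6]
    exact (ENNReal.ofReal_le_iff_le_toReal (hgtop m0)).mp h5
  have ha0pos : 0 < a 0 := lt_of_lt_of_le (by positivity) hstart
  -- recursion
  have hrec : ∀ k, a k ≤ a (k + 1) + C * ((m k : ℕ) : ℝ) ^ (-β) * a k
      + Real.exp (-(c * ((m k : ℕ) : ℝ) ^ (1 / (400 * (κ : ℝ))))) := by
    intro k
    have h := hst m0 k (2 * ((m (k + 1) : ℕ) : ℝ) + 2) hm1 le_rfl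
    have hmk : 2 * ((m k : ℕ) : ℝ) + 2 ≤ 2 * ((m (k + 1) : ℕ) : ℝ) + 2 := by
      have : m k ≤ m (k + 1) := by
        simp only [hmdef]
        exact Nat.mul_le_mul_right _ (Nat.pow_le_pow_right (by norm_num) (Nat.le_succ k))
      have : ((m k : ℕ) : ℝ) ≤ ((m (k + 1) : ℕ) : ℝ) := by exact_mod_cast this
      linarith
    have e1 : pgood d lam (thr κ m0) (2 * ((m (k + 1) : ℕ) : ℝ) + 2) (2 ^ k * m0) = g (m k) :=
      hgL (m k) _ hmk
    have e2 : pgood d lam (thr κ m0) (2 * ((m (k + 1) : ℕ) : ℝ) + 2) (2 ^ (k + 1) * m0)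
        = g (m (k + 1)) := hgL (m (k + 1)) _ le_rfl
    rw [e1, e2] at h
    have hx0 : 0 ≤ C * ((m k : ℕ) : ℝ) ^ (-β) := by positivity
    have hR : (g (m (k + 1)) + ENNReal.ofReal (C * ((m k : ℕ) : ℝ) ^ (-β)) * g (m k)
        + ENNReal.ofReal (Real.exp (-(c * ((m k : ℕ) : ℝ) ^ (1 / (400 * (κ : ℝ))))))) ≠ ∞ := by
      refine ENNReal.add_ne_top.mpr ⟨ENNReal.add_ne_top.mpr ⟨hgtop _, ?_⟩, ENNReal.ofReal_ne_top⟩
      exact ENNReal.mul_ne_top ENNReal.ofReal_ne_top (hgtop _)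
    have h' := ENNReal.toReal_mono hR h
    rw [ENNReal.toReal_add (ENNReal.add_ne_top.mpr ⟨hgtop _,
      ENNReal.mul_ne_top ENNReal.ofReal_ne_top (hgtop _)⟩) ENNReal.ofReal_ne_top,
      ENNReal.toReal_add (hgtop _) (ENNReal.mul_ne_top ENNReal.ofReal_ne_top (hgtop _)),
      ENNReal.toReal_mul, ENNReal.toReal_ofReal hx0, ENNReal.toReal_ofReal (Real.exp_pos _).le] at h'
    exact h'
  have hmkR : ∀ k, ((m k : ℕ) : ℝ) = 2 ^ k * (m0 : ℝ) := by
    intro k; simp [hmdef]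
  have hxk : ∀ k, ((m k : ℕ) : ℝ) ^ (-β) = (m0 : ℝ) ^ (-β) * q ^ k := by
    intro k
    rw [hmkR, Real.mul_rpow (by positivity) hm0R.le, mul_comm]
    congr 1
    rw [hq, ← Real.rpow_natCast, ← Real.rpow_natCast, ← Real.rpow_mul (by norm_num),
      ← Real.rpow_mul (by norm_num)]
    ring_nf
  have hek : ∀ k, Real.exp (-(c * ((m k : ℕ) : ℝ) ^ (1 / (400 * (κ : ℝ)))))
      ≤ K / (m0 : ℝ) ^ (3 * κ + 1) * (1 / 2) ^ k := by
    intro k
    have h1 : (1 : ℝ) ≤ ((m k : ℕ) : ℝ) := by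
      have := hm0le k
      exact_mod_cast hm.trans this
    refine (hexp _ h1).trans ?_
    rw [hmkR, mul_pow]
    have h2 : (2 : ℝ) ^ k ≤ (2 ^ k) ^ (3 * κ + 1) := by
      have : (1 : ℝ) ≤ 2 ^ k := one_le_pow₀ (by norm_num)
      exact le_self_pow₀ this (by omega)
    have h3 : K / ((2 ^ k) ^ (3 * κ + 1) * (m0 : ℝ) ^ (3 * κ + 1))
        ≤ K / (2 ^ k * (m0 : ℝ) ^ (3 * κ + 1)) := by
      apply div_le_div_of_nonneg_left hK.le (by positivity)
      exact mul_le_mul_of_nonneg_right h2 (by positivity)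
    refine h3.trans (le_of_eq ?_)
    rw [one_div, inv_pow]
    field_simp
  -- lower bound
  have hlow : ∀ k, a 0 - C * (m0 : ℝ) ^ (-β) * a 0 * ((1 - q ^ k) / (1 - q))
      - 2 * (K / (m0 : ℝ) ^ (3 * κ + 1)) * (1 - (1 / 2) ^ k) ≤ a k := by
    intro k
    induction k with
    | zero => simp
    | succ k ih =>
      have h1 := hrec k
      rw [hxk k] at h1
      have h2 := hek k
      have h3 : C * ((m0 : ℝ) ^ (-β) * q ^ k) * a k ≤ C * ((m0 : ℝ) ^ (-β) * q ^ k) * a 0 :=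
        mul_le_mul_of_nonneg_left (ha0 k) (by positivity)
      have hq' : 1 - q ≠ 0 := by linarith
      have e1 : (1 - q ^ (k + 1)) / (1 - q) = (1 - q ^ k) / (1 - q) + q ^ k := by
        field_simp
        ring
      have e2 : (1 : ℝ) - (1 / 2) ^ (k + 1) = (1 - (1 / 2) ^ k) + (1 / 2) ^ k / 2 := by
        rw [pow_succ]; ring
      rw [e1, e2]
      have e3 : a 0 - C * (m0 : ℝ) ^ (-β) * a 0 * ((1 - q ^ k) / (1 - q) + q ^ k)
          - 2 * (K / (m0 : ℝ) ^ (3 * κ + 1)) * ((1 - (1 / 2) ^ k) + (1 / 2) ^ k / 2)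
          = (a 0 - C * (m0 : ℝ) ^ (-β) * a 0 * ((1 - q ^ k) / (1 - q))
            - 2 * (K / (m0 : ℝ) ^ (3 * κ + 1)) * (1 - (1 / 2) ^ k))
            - C * ((m0 : ℝ) ^ (-β) * q ^ k) * a 0
            - K / (m0 : ℝ) ^ (3 * κ + 1) * (1 / 2) ^ k := by ring
      rw [e3]
      linarith
  have hfin : ∀ k, a 0 / 2 ≤ a k := by
    intro k
    refine le_trans ?_ (hlow k)
    have hqk0 : 0 ≤ q ^ k := by positivity
    have h1 : C * (m0 : ℝ) ^ (-β) * a 0 * ((1 - q ^ k) / (1 - q)) ≤ a 0 / 4 := by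
      have h2 : (1 - q ^ k) / (1 - q) ≤ 1 / (1 - q) :=
        div_le_div_of_nonneg_right (by linarith) (by linarith)
      have h3 : C * (m0 : ℝ) ^ (-β) * a 0 * ((1 - q ^ k) / (1 - q))
          ≤ C * (m0 : ℝ) ^ (-β) * a 0 * (1 / (1 - q)) :=
        mul_le_mul_of_nonneg_left h2 (by positivity)
      have h4 : C * (m0 : ℝ) ^ (-β) * a 0 * (1 / (1 - q))
          = (C * (m0 : ℝ) ^ (-β) / (1 - q)) * a 0 := by ring
      rw [h4] at h3
      have h5 := mul_le_mul_of_nonneg_right hb1.le ha0pos.le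
      linarith
    have h6 : 2 * (K / (m0 : ℝ) ^ (3 * κ + 1)) * (1 - (1 / 2) ^ k) ≤ a 0 / 4 := by
      have h7 : (1 : ℝ) - (1 / 2) ^ k ≤ 1 := by
        have : (0 : ℝ) ≤ (1 / 2) ^ k := by positivity
        linarith
      have h8 : 2 * (K / (m0 : ℝ) ^ (3 * κ + 1)) * (1 - (1 / 2) ^ k)
          ≤ 2 * (K / (m0 : ℝ) ^ (3 * κ + 1)) * 1 :=
        mul_le_mul_of_nonneg_left h7 (by positivity)
      have h9 : 2 * (K / (m0 : ℝ) ^ (3 * κ + 1)) * 1
          = (2 * K / (m0 : ℝ)) * (1 / (m0 : ℝ) ^ (3 * κ)) := by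
        rw [pow_succ]; field_simp
      have h10 : (2 * K / (m0 : ℝ)) * (1 / (m0 : ℝ) ^ (3 * κ))
          ≤ (c1 / 4 ^ (3 * κ) / 4) * (1 / (m0 : ℝ) ^ (3 * κ)) :=
        mul_le_mul_of_nonneg_right hb2.le (by positivity)
      have h11 : (c1 / 4 ^ (3 * κ) / 4) * (1 / (m0 : ℝ) ^ (3 * κ))
          = c1 / (4 * (m0 : ℝ)) ^ (3 * κ) / 4 := by
        rw [mul_pow]; field_simp
      rw [h11] at h10
      linarith
    linarith
  refine ⟨Real.toNNReal (a 0 / 2), by simpa using ha0pos, fun i L hL => ?_⟩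
  have hik : i ≤ m i := by
    calc i ≤ 2 ^ i := Nat.lt_two_pow_self.le
      _ ≤ 2 ^ i * m0 := Nat.le_mul_of_pos_right _ (by omega)
  rw [hgL i L hL]
  refine le_trans ?_ (hgmono i (m i) hik)
  have := hfin i
  change ENNReal.ofReal (a 0 / 2) ≤ _
  exact (ENNReal.ofReal_le_iff_le_toReal (hgtop _)).mpr this

end Pool.Agent.Lib.MP_5349a4_pr.H91
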